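import Mathlib

/-!
# An integer which is the average order of the elements of a finite group is `1` modulo `4`

Let `ψ(G)` be the sum of the orders of the elements of the finite group `G`. The elements of `G`
generating a given cyclic subgroup of order `m` contribute `φ(m) (m - 1)` to `ψ(G) - |G|`. When
`|G|` is odd, both factors are even for every `m > 1`, so `ψ(G) ≡ |G|` modulo `4`. More generally,
`ψ(G) ≡ |G|` modulo `d ^ 2` if all the prime divisors of `|G|` are `1` modulo `d`.
-/

namespace Pool.Agent.Results.MP_3da00f_al.OneModFour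

open Finset

/-- `o(G)`: the average order of an element of the finite group `G`. -/
noncomputable def avgOrder (G : Type*) [Group G] [Fintype G] : ℚ :=
  (∑ x : G, (orderOf x : ℚ)) / (Fintype.card G : ℚ)

section

variable {G : Type*} [Group G] [Fintype G]

open Classical in
/-- The number of the generators of a cyclic subgroup. -/
lemma card_gen (g : G) : (univ.filter fun x : G => Subgroup.zpowers x = Subgroup.zpowers g).card =
    Nat.totient (orderOf g) := by
  have hc : Fintype.card (Subgroup.zpowers g) = orderOf g := Fintype.card_zpowers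
  have h := IsCyclic.card_orderOf_eq_totient (α := Subgroup.zpowers g) (d := orderOf g)
    (by rw [hc])
  rw [← h]
  symm
  refine Finset.card_bij (fun a _ => (a : G)) ?_ ?_ ?_
  · intro a ha
    simp only [mem_filter, mem_univ, true_and] at ha ⊢
    have hle : Subgroup.zpowers (a : G) ≤ Subgroup.zpowers g := by
      rw [Subgroup.zpowers_le]; exact a.2
    refine Subgroup.eq_of_le_of_card_ge hle ?_
    rw [Nat.card_zpowers, Nat.card_zpowers, Subgroup.orderOf_coe, ha]
  · intro a _ b _ hab
    exact Subtype.ext hab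
  · intro b hb
    simp only [mem_filter, mem_univ, true_and] at hb
    have hb' : b ∈ Subgroup.zpowers g := by
      rw [← hb]; exact Subgroup.mem_zpowers b
    refine ⟨⟨b, hb'⟩, ?_, rfl⟩
    simp only [mem_filter, mem_univ, true_and]
    rw [Subgroup.orderOf_mk, ← Nat.card_zpowers b, ← Nat.card_zpowers g, hb]

open Classical in
/-- A sum over the elements of `G` of a function of the order. -/
lemma dvd_sum (D : ℤ) (F : ℕ → ℤ) (h : ∀ g : G, D ∣ (Nat.totient (orderOf g) : ℤ) * F (orderOf g)) :
    D ∣ ∑ x : G, F (orderOf x) := by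
  rw [← Finset.sum_fiberwise_of_maps_to (s := univ)
    (t := (univ : Finset G).image fun x => Subgroup.zpowers x)
    (g := fun x : G => Subgroup.zpowers x) (fun x hx => Finset.mem_image_of_mem _ hx)]
  refine Finset.dvd_sum fun C hC => ?_
  obtain ⟨g, _, rfl⟩ := Finset.mem_image.1 hC
  have : ∑ i ∈ univ.filter (fun x : G => Subgroup.zpowers x = Subgroup.zpowers g), F (orderOf i) =
      (Nat.totient (orderOf g) : ℤ) * F (orderOf g) := by
    rw [Finset.sum_congr rfl (g := fun _ => F (orderOf g)), Finset.sum_const, card_gen, nsmul_eq_mul]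
    intro x hx
    simp only [mem_filter, mem_univ, true_and] at hx
    rw [← Nat.card_zpowers x, ← Nat.card_zpowers g, hx]
  rw [this]
  exact h g

end

lemma modEq_one {d m : ℕ} (hm : m ≠ 0) (h : ∀ p, p.Prime → p ∣ m → p ≡ 1 [MOD d]) :
    m ≡ 1 [MOD d] := by
  induction m using induction_on_primes with
  | zero => exact absurd rfl hm
  | one => rfl
  | prime_mul p a hp ih =>
    have ha : a ≠ 0 := by rintro rfl; simp at hm
    have h1 := h p hp (dvd_mul_right _ _)
    have h2 := ih ha fun q hq hqa => h q hq (hqa.mul_left _)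
    simpa using h1.mul h2

lemma dvd_totient {d m : ℕ} (hm : m ≠ 1) (h : ∀ p, p.Prime → p ∣ m → p ≡ 1 [MOD d]) :
    d ∣ Nat.totient m := by
  obtain ⟨p, hp, hpm⟩ := Nat.exists_prime_and_dvd hm
  have h1 : d ∣ p - 1 := (Nat.modEq_iff_dvd' hp.one_lt.le).1 (h p hp hpm).symm
  rw [← Nat.totient_prime hp] at h1
  exact h1.trans (Nat.totient_dvd_of_dvd hpm)

variable {G : Type*} [Group G] [Fintype G]

/-- `ψ(G) ≡ |G|` modulo `d ^ 2` if all the primes dividing `|G|` are `1` modulo `d`. -/
lemma sq_dvd (d : ℕ) (h : ∀ p, p.Prime → p ∣ Fintype.card G → p ≡ 1 [MOD d]) :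
    ((d : ℤ) ^ 2) ∣ ∑ x : G, ((orderOf x : ℤ) - 1) := by
  refine dvd_sum ((d : ℤ) ^ 2) (fun m => (m : ℤ) - 1) fun g => ?_
  have hg : ∀ p, p.Prime → p ∣ orderOf g → p ≡ 1 [MOD d] := fun p hp hpg =>
    h p hp (hpg.trans (orderOf_dvd_card))
  by_cases h1 : orderOf g = 1
  · simp [h1]
  · have a := dvd_totient h1 hg
    have b := modEq_one (orderOf_pos g).ne' hg
    have b' : (d : ℤ) ∣ (orderOf g : ℤ) - 1 := by
      have := (Nat.modEq_iff_dvd.1 b.symm)
      simpa using this
    rw [pow_two]
    exact mul_dvd_mul (Int.natCast_dvd_natCast.2 a) b'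

/-- `ψ(G)` is odd. -/
lemma psi_odd : ¬ (2 : ℤ) ∣ ∑ x : G, (orderOf x : ℤ) := by
  classical
  have h : (2 : ℤ) ∣ ∑ x : G, (if orderOf x = 1 then (0 : ℤ) else (orderOf x : ℤ)) := by
    refine dvd_sum 2 (fun m => if m = 1 then (0 : ℤ) else (m : ℤ)) fun g => ?_
    by_cases h1 : orderOf g = 1
    · simp [h1]
    · simp only [h1, if_false]
      by_cases h2 : 2 ∣ orderOf g
      · exact Dvd.dvd.mul_left (by exact_mod_cast h2) _
      · have h3 : 2 < orderOf g := by
          have := orderOf_pos g
          omega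
        have := (Nat.totient_even h3).two_dvd
        exact Dvd.dvd.mul_right (by exact_mod_cast this) _
  intro h'
  have h2 := dvd_sub h' h
  rw [← Finset.sum_sub_distrib] at h2
  have h3 : ∑ x : G, ((orderOf x : ℤ) - if orderOf x = 1 then (0 : ℤ) else (orderOf x : ℤ)) = 1 := by
    rw [Finset.sum_eq_single (1 : G)]
    · simp
    · intro b _ hb
      have : orderOf b ≠ 1 := by rwa [Ne, orderOf_eq_one_iff]
      simp [this]
    · intro h; exact absurd (Finset.mem_univ _) h
  rw [h3] at h2
  norm_num at h2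

omit [Fintype G] in
lemma card_odd_of_int [Fintype G] {n : ℤ} (h : ∑ x : G, (orderOf x : ℤ) = n * Fintype.card G) :
    ¬ 2 ∣ Fintype.card G := by
  intro h2
  apply psi_odd (G := G)
  rw [h]
  exact Dvd.dvd.mul_left (by exact_mod_cast h2) _

lemma modEq_of_int {n : ℤ} (h : ∑ x : G, (orderOf x : ℤ) = n * Fintype.card G) (d : ℕ)
    (hd : ∀ p, p.Prime → p ∣ Fintype.card G → p ≡ 1 [MOD d]) : n ≡ 1 [ZMOD (d : ℤ) ^ 2] := by
  have h1 := sq_dvd (G := G) d hd
  rw [Finset.sum_sub_distrib, h] at h1
  simp only [sum_const, card_univ, nsmul_eq_mul, mul_one] at h1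
  have h2 : n * (Fintype.card G : ℤ) - Fintype.card G = (n - 1) * Fintype.card G := by ring
  rw [h2] at h1
  have hc : Fintype.card G ≡ 1 [MOD d] := modEq_one Fintype.card_ne_zero hd
  have hcop : Nat.Coprime d (Fintype.card G) := by
    have := hc.gcd_eq
    rw [Nat.gcd_one_left] at this
    rw [Nat.coprime_comm]
    exact this
  have hcop' : IsCoprime ((d : ℤ) ^ 2) (Fintype.card G : ℤ) :=
    (Nat.isCoprime_iff_coprime.2 hcop).pow_left
  have h3 := hcop'.dvd_of_dvd_mul_right h1
  exact (Int.modEq_iff_dvd.2 h3).symm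

/-- If the average order of the elements of the finite group `G` is an integer `n`, then
`n ≡ 1` modulo `4`; moreover `n ≡ 1` modulo `d ^ 2` for every `d` such that all the prime divisors
of `|G|` are `1` modulo `d`. -/
theorem result : ∀ (G : Type*) [Group G] [Fintype G] (n : ℤ), avgOrder G = n →
    n ≡ 1 [ZMOD 4] ∧
    ∀ d : ℕ, (∀ p : ℕ, p.Prime → p ∣ Fintype.card G → p ≡ 1 [MOD d]) →
      n ≡ 1 [ZMOD (d : ℤ) ^ 2] := by
  intro G _ _ n hn
  have hc : (Fintype.card G : ℚ) ≠ 0 := by exact_mod_cast Fintype.card_ne_zero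
  have h : ∑ x : G, (orderOf x : ℤ) = n * Fintype.card G := by
    rw [avgOrder, div_eq_iff hc] at hn
    exact_mod_cast hn
  refine ⟨?_, fun d hd => modEq_of_int h d hd⟩
  have h2 := modEq_of_int h 2 fun p hp hpc => by
    rcases hp.eq_two_or_odd with rfl | hodd
    · exact absurd hpc (card_odd_of_int h)
    · exact hodd
  simpa using h2

end Pool.Agent.Results.MP_3da00f_al.OneModFour
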